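import Pool.Agent.Helper91_PC.Final

/-!
# The optimal pairwise coupling ratio is not always two (Q2 of MP_ee92c9_pr)

For every `0 < q ≤ 1/100` the optimal pairwise coupling ratio of `𝒫(ℝ)` for the cost `|x - y| ^ q`
is strictly larger than `2`.  The definitions (`cost`, `optimalCost`, `IsCoupling`, `pairRatio`,
`optRatio`) are in `Pool.Agent.Helper91_PC.Defs`.
-/

set_option autoImplicit false

namespace Pool.Agent.Results.MP_ee92c9_pr.RatioExceedsTwo

open Pool.Agent.Helper91PC

/-- For every `q ∈ (0, 1/100]` the optimal pairwise coupling ratio `r*_{c_q}(𝒫(ℝ))` is larger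
than `2`. -/
theorem result : ∀ q : ℝ, 0 < q → q ≤ 1 / 100 → 2 < optRatio q :=
  fun _ h0 h1 => optRatio_gt_two h0 h1

end Pool.Agent.Results.MP_ee92c9_pr.RatioExceedsTwo
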