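import Pool.Agent.Helper91_PR.Final

/-!
# A uniform bound for the optimal pairwise coupling ratio (Q1 of MP_ee92c9_pr)

There is a finite constant `K` such that the optimal pairwise coupling ratio of `𝒫(ℝ)` for the cost
`|x - y| ^ q` is at most `K` for every `q > 0`.  The definitions (`cost`, `optimalCost`,
`IsCoupling`, `pairRatio`, `optRatio`) are in `Pool.Agent.Helper91_PC.Defs`.
-/

set_option autoImplicit false

open scoped NNReal

namespace Pool.Agent.Results.MP_ee92c9_pr.UniformConstant

open Pool.Agent.Helper91PC

/-- There is a finite constant `K` with `r*_{c_q}(𝒫(ℝ)) ≤ K` for every `q > 0`. -/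
theorem result : ∃ K : ℝ≥0, ∀ q : ℝ, 0 < q → optRatio q ≤ K :=
  Pool.Agent.Helper91PR.final_all

end Pool.Agent.Results.MP_ee92c9_pr.UniformConstant
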